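import Pool.Agent.Run7.h492.UT.Final

/-!
# MP_725b87_an, Q1: the exceptional set of a plurisubharmonic function has Lebesgue measure zero

For every n, every open Ω ⊆ ℂ^n (in particular every bounded pseudoconvex domain) and every
plurisubharmonic φ on Ω, the set E(φ) of the points of Ω at which φ has no differential test from
above has Lebesgue measure zero.  This answers Q1 positively.
-/

set_option autoImplicit false

open Set Filter Topology Metric MeasureTheory

namespace Pool.Agent.Results.MP_725b87_an.ExceptionalSetNull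

/-- complex n-space with its Hermitian norm -/
abbrev Cn (n : ℕ) : Type := EuclideanSpace ℂ (Fin n)

/-- The point z + e^{iθ} w on the boundary circle of the complex disc z + D w. -/
noncomputable def circ {n : ℕ} (z w : Cn n) (θ : ℝ) : Cn n :=
  z + Complex.exp ((θ : ℂ) * Complex.I) • w

/-- Plurisubharmonic functions on an open set Ω, with values in [-∞, ∞) (the function identically
-∞ is allowed).  The function is upper semicontinuous on Ω and, for every closed complex disc
{z + ζ w, |ζ| ≤ 1} contained in Ω, the value at the centre z is at most the mean over the boundary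
circle.  The mean of an upper semicontinuous function is the infimum of the means of its
continuous majorants. -/
def IsPSH {n : ℕ} (Ω : Set (Cn n)) (φ : Cn n → EReal) : Prop :=
  (∀ z ∈ Ω, φ z ≠ ⊤) ∧ UpperSemicontinuousOn φ Ω ∧
  ∀ z w : Cn n, (∀ ζ : ℂ, ‖ζ‖ ≤ 1 → z + ζ • w ∈ Ω) →
    ∀ h : ℝ → ℝ, Continuous h → (∀ θ ∈ Icc 0 (2 * Real.pi), φ (circ z w θ) ≤ (h θ : EReal)) →
      φ z ≤ (((2 * Real.pi)⁻¹ * ∫ θ in (0 : ℝ)..(2 * Real.pi), h θ : ℝ) : EReal)

/-- A differential test from above for φ at z: a function q of class C^2 on an open neighbourhood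
V ⊆ Ω of z with (φ - q)(z) = sup over V of (φ - q). -/
def HasUpperTest {n : ℕ} (Ω : Set (Cn n)) (φ : Cn n → EReal) (z : Cn n) : Prop :=
  ∃ (V : Set (Cn n)) (q : Cn n → ℝ), IsOpen V ∧ V ⊆ Ω ∧ z ∈ V ∧ ContDiffOn ℝ 2 q V ∧
    ∀ y ∈ V, φ y - (q y : EReal) ≤ φ z - (q z : EReal)

/-- The exceptional set E(φ). -/
def exceptional {n : ℕ} (Ω : Set (Cn n)) (φ : Cn n → EReal) : Set (Cn n) :=
  {z | z ∈ Ω ∧ ¬ HasUpperTest Ω φ z}

/-- **E(φ) has Lebesgue measure zero** (positive answer to Q1). -/
theorem result : ∀ (n : ℕ) (Ω : Set (Cn n)), IsOpen Ω → ∀ φ : Cn n → EReal, IsPSH Ω φ →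
    volume (exceptional Ω φ) = 0 := by
  intro n Ω hΩ φ hφ
  have h : Pool.Agent.Run7.h492.UT.mu n (exceptional Ω φ) = 0 :=
    Pool.Agent.Run7.h492.UT.exceptional_null hΩ hφ
  exact Measure.absolutelyContinuous_isAddHaarMeasure volume (Pool.Agent.Run7.h492.UT.mu n) h

end Pool.Agent.Results.MP_725b87_an.ExceptionalSetNull
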